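import Pool.Agent.Lib.MP_b4fb0e_al.Embed

/-!
The monoid `WithOne W` obtained from the semigroup `W` by adjoining an identity: its monoid
algebra is a domain in characteristic different from 2, embeds in a division algebra over the
field with three elements, and embeds in no division ring when `X ^ 7 - 1` splits.
-/

set_option autoImplicit false

namespace Pool.Agent.Results.MP_b4fb0e_al.MonoidEx

open Pool.Agent.Lib.MP_b4fb0e_al Polynomial

section

variable {F : Type*} [Field F]

theorem idem_eq_zero {e : MonoidAlgebra F W} (h : e * e = e) : e = 0 := by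
  classical
  by_contra h0
  have h1 : e.coeff.support.Nonempty := by
    rw [Finsupp.support_nonempty_iff]; simpa using h0
  obtain ⟨s, hs, hmin⟩ := Finset.exists_min_image _ (fun a : W => a.m.length) h1
  obtain ⟨a, ha, b, -, rfl⟩ :=
    Finset.mem_mul.1 (MonoidAlgebra.support_coeff_mul_subset e e (h.symm ▸ hs))
  have := hmin a ha
  simp only [W.mul_m, List.length_append, List.length_cons] at this
  omega

/-- the inclusion of the semigroup algebra in the monoid algebra -/
noncomputable abbrev inc : MonoidAlgebra F W →ₙₐ[F] MonoidAlgebra F (WithOne W) :=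
  MonoidAlgebra.mapDomainNonUnitalAlgHom F F WithOne.coeMulHom

theorem inc_single (w : W) (a : F) :
    inc (MonoidAlgebra.single w a) = MonoidAlgebra.single (w : WithOne W) a :=
  MonoidAlgebra.mapDomain_single

theorem inc_inj : Function.Injective (inc (F := F)) :=
  MonoidAlgebra.mapDomain_injective WithOne.coe_injective

theorem inc_one (g : MonoidAlgebra F W) : (inc g).coeff 1 = 0 :=
  Finsupp.mapDomain_of_notMem_range _ _ (by rintro ⟨w, h⟩; exact WithOne.coe_ne_one h)

theorem decomp (x : MonoidAlgebra F (WithOne W)) : ∃ (a : F) (g : MonoidAlgebra F W),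
    x = a • 1 + inc g := by
  induction x using MonoidAlgebra.induction_linear with
  | zero => exact ⟨0, 0, by simp⟩
  | add x y hx hy =>
    obtain ⟨a, f, rfl⟩ := hx
    obtain ⟨b, g, rfl⟩ := hy
    exact ⟨a + b, f + g, by rw [map_add, add_smul, add_add_add_comm]⟩
  | single s c =>
    induction s using WithOne.recOneCoe with
    | one => exact ⟨c, 0, by simp [MonoidAlgebra.one_def]⟩
    | coe w => exact ⟨0, .single w c, by rw [inc_single, zero_smul, zero_add]⟩

theorem domain (h2 : (2 : F) ≠ 0) : IsDomain (MonoidAlgebra F (WithOne W)) := by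
  have := noZeroDivisors_W h2
  have : NoZeroDivisors (MonoidAlgebra F (WithOne W)) := by
    refine ⟨fun {x y} h => ?_⟩
    obtain ⟨a, f, rfl⟩ := decomp x
    obtain ⟨b, g, rfl⟩ := decomp y
    have e : (a * b) • (1 : MonoidAlgebra F (WithOne W)) + inc (a • g + b • f + f * g) = 0 := by
      rw [← h]
      simp only [map_add, map_smul, map_mul, add_mul, mul_add, smul_mul_assoc, mul_smul_comm,
        one_mul, mul_one, mul_smul]
      module
    have hab : a * b = 0 := by
      have := congrArg (fun z => z.coeff 1) e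
      simp only [MonoidAlgebra.coeff_add, Finsupp.add_apply, inc_one] at this
      simpa [MonoidAlgebra.one_def] using this
    rw [hab, zero_smul, zero_add, map_eq_zero_iff _ inc_inj] at e
    by_contra hne
    rw [not_or] at hne
    rcases mul_eq_zero.1 hab with rfl | rfl
    · have hf : f ≠ 0 := by rintro rfl; simp at hne
      rw [zero_smul, zero_add] at e
      by_cases hb : b = 0
      · rw [hb, zero_smul, zero_add] at e
        exact hne.2 (by simp [hb, (mul_eq_zero.1 e).resolve_left hf])
      · have h1 : f * ((-b⁻¹) • g) = f := by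
          rw [mul_smul_comm, eq_neg_of_add_eq_zero_right e, smul_neg, smul_smul]
          simp [hb]
        generalize (-b⁻¹) • g = t at h1
        have h3 : t = 0 := idem_eq_zero (mul_left_cancel₀ hf (by rw [← mul_assoc, h1, h1]))
        exact hf (by rw [← h1, h3, mul_zero])
    · have hg : g ≠ 0 := by rintro rfl; simp at hne
      rw [zero_smul, add_zero] at e
      by_cases ha : a = 0
      · rw [ha, zero_smul, zero_add] at e
        exact hne.1 (by simp [ha, (mul_eq_zero.1 e).resolve_right hg])
      · have h1 : ((-a⁻¹) • f) * g = g := by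
          rw [smul_mul_assoc, eq_neg_of_add_eq_zero_right e, smul_neg, smul_smul]
          simp [ha]
        generalize (-a⁻¹) • f = t at h1
        have h3 : t = 0 := idem_eq_zero (mul_right_cancel₀ hg (by rw [mul_assoc, h1, h1]))
        exact hg (by rw [← h1, h3, zero_mul])
  exact NoZeroDivisors.to_isDomain _

/-- an injective map of a nonzero ring to a division ring is unital -/
theorem unital {A D : Type*} [Ring A] [Nontrivial A] [DivisionRing D] (f : A →ₙ+* D)
    (hf : Function.Injective f) : ∃ g : A →+* D, ∀ x, g x = f x := by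
  have h0 : f 1 ≠ 0 := (map_ne_zero_iff f hf).2 one_ne_zero
  exact ⟨{ f with map_one' := mul_left_cancel₀ h0 (by
    change f 1 * f 1 = f 1 * 1
    rw [← map_mul, mul_one, mul_one]) }, fun _ => rfl⟩

theorem root {D : Type*} [DivisionRing D] (c : F →+* D) {z : D} (hz : ∀ a, Commute (c a) z)
    {p : F[X]} (hp : p.Splits) (h0 : p ≠ 0) (h : eval₂RingHom' c z hz p = 0) : ∃ r, z = c r := by
  induction hp using Submonoid.closure_induction with
  | mem q hq =>
    rcases hq with ⟨a, rfl⟩ | ⟨a, rfl⟩
    · have : c a = 0 := (eval₂_C c z).symm.trans h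
      exact absurd (congrArg C ((map_eq_zero c).1 this)) (by simpa using h0)
    · have : z + c a = 0 := by
        rw [← h, map_add]
        exact congrArg₂ _ (eval₂_X c z).symm (eval₂_C c z).symm
      exact ⟨-a, by rw [map_neg, eq_neg_of_add_eq_zero_left this]⟩
  | one => simp at h
  | mul p q _ _ hp hq =>
    rw [map_mul] at h
    exact (mul_eq_zero.1 h).elim (hp (left_ne_zero_of_mul h0)) (hq (right_ne_zero_of_mul h0))

theorem noEmbed (hs : (X ^ 7 - 1 : F[X]).Splits) (D : Type*) [DivisionRing D]
    (f' : MonoidAlgebra F (WithOne W) →ₙ+* D) : ¬ Function.Injective f' := by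
  intro hf'
  obtain ⟨f, hff⟩ := unital f' hf'
  have hf : Function.Injective f := by rwa [← funext hff] at hf'
  let φ : W → D := fun w => f (.single w 1)
  let c : F →+* D := f.comp (algebraMap F _)
  have hφ0 : ∀ w, φ w ≠ 0 := fun w => (map_ne_zero_iff f hf).2 (by simp)
  have hc : ∀ a w, Commute (c a) (φ w) := fun a w => Commute.map (Algebra.commutes a _) f
  have rel : ∀ {i i' j j' : ZMod 7} (hi : InI i) (hi' : InI i') (hj : InJ j) (hj' : InJ j'),
      i + j = i' + j' →
      φ (w0.setL i hi) * φ (w0.setH j hj) = φ (w0.setL i' hi') * φ (w0.setH j' hj') := by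
    intro i i' j j' hi hi' hj hj' h
    simp only [φ, ← map_mul, MonoidAlgebra.single_mul_single, ← WithOne.coe_mul]
    rw [W.setL_mul_setH_eq w0 w0 hi hi' hj hj' h]
  have e1 := rel i0 i3 j1 j5 (by decide)
  have e2 := rel i0 i1 j2 j1 (by decide)
  have e3 := rel i0 i1 j3 j2 (by decide)
  have e4 := rel i1 i3 j3 j1 (by decide)
  have e5 := rel i0 i3 j5 j2 (by decide)
  have n0 := hφ0 (w0.setL 0 i0)
  have m1 := hφ0 (w0.setH 1 j1)
  have hz : ∀ a, Commute (c a) ((φ (w0.setL 0 i0))⁻¹ * φ (w0.setL 1 i1)) := fun a =>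
    (hc a _).inv_right₀.mul_right (hc a _)
  have hA1 : φ (w0.setL 1 i1) = φ (w0.setL 0 i0) * ((φ (w0.setL 0 i0))⁻¹ * φ (w0.setL 1 i1)) := by
    rw [mul_inv_cancel_left₀ n0]
  generalize (φ (w0.setL 0 i0))⁻¹ * φ (w0.setL 1 i1) = z at hz hA1
  have hz7 : z ^ 7 = 1 := by
    rw [hA1] at e2 e3 e4
    generalize φ (w0.setL 0 i0) = A0 at *
    generalize φ (w0.setL 3 i3) = A3 at *
    generalize φ (w0.setH 1 j1) = B1 at *
    generalize φ (w0.setH 2 j2) = B2 at *
    generalize φ (w0.setH 3 j3) = B3 at *
    generalize φ (w0.setH 5 j5) = B5 at *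
    obtain rfl : B2 = z * B1 := mul_left_cancel₀ n0 (by rw [e2, mul_assoc])
    obtain rfl : B3 = z * (z * B1) := mul_left_cancel₀ n0 (by rw [e3, mul_assoc])
    obtain rfl : A3 = A0 * z ^ 3 := mul_right_cancel₀ m1 (by rw [← e4]; noncomm_ring)
    obtain rfl : B5 = z ^ 4 * B1 := mul_left_cancel₀ n0 (by rw [e5]; noncomm_ring)
    have : A0 * (z ^ 7 * B1) = A0 * (1 * B1) := by rw [one_mul, e1]; noncomm_ring
    exact mul_right_cancel₀ m1 (mul_left_cancel₀ n0 this)
  obtain ⟨r, rfl⟩ := root c hz hs (X_pow_sub_C_ne_zero (by norm_num) (1 : F)) (by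
    rw [map_sub, map_pow, map_one, sub_eq_zero, ← hz7]
    exact congrArg (· ^ 7) (eval₂_X c z))
  have h1 : MonoidAlgebra.single (w0.setL 1 i1 : WithOne W) (1 : F) =
      .single (w0.setL 0 i0 : WithOne W) r := hf (by
    refine hA1.trans ?_
    simp [φ, c, ← map_mul, MonoidAlgebra.single_mul_single])
  have h2 : (w0.setL 0 i0 : WithOne W) ≠ w0.setL 1 i1 := fun h =>
    absurd (congrArg W.l (WithOne.coe_injective h)) (by decide)
  have := congrArg (fun z => z.coeff (w0.setL 1 i1 : WithOne W)) h1
  simp [h2] at this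

end

/-- an element of the monoid as a pair -/
def pr : WithOne W → List (ZMod 7) × ZMod 7 := WithOne.recOneCoe ([], 0) W.toPair

theorem embedR : ∃ f : MonoidAlgebra (ZMod 3) (WithOne W) →ₙ+* R, Function.Injective f := by
  obtain ⟨ψ, hψ⟩ := exists_psi
  have hφ : ∀ s, WithOne.lift (evW ψ) s = ev ψ (pr s).1 (pr s).2 := fun s => by
    induction s using WithOne.recOneCoe with
    | one => simp [pr, ev]
    | coe w => rfl
  have hi : Function.Injective pr := fun s t h => by
    induction s using WithOne.recOneCoe <;> induction t using WithOne.recOneCoe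
    · rfl
    · simp [pr, W.toPair] at h
    · simp [pr, W.toPair] at h
    · exact congrArg _ (W.toPair_injective h)
  let G := MonoidAlgebra.liftMagma (ZMod 3) (WithOne.lift (evW ψ) : WithOne W →ₙ* R)
  refine ⟨(G : MonoidAlgebra (ZMod 3) (WithOne W) →ₙ+* R), ?_⟩
  rw [injective_iff_map_eq_zero]
  intro f hf
  have h1 : E ψ (Finsupp.mapDomain pr f.coeff) = 0 := by
    rw [E, Finsupp.linearCombination_mapDomain, Finsupp.linearCombination_apply]
    simp only [Function.comp_apply, ← hφ]
    exact hf
  ext s
  have h2 := indep hψ (pr s).1 (pr s).2 _ (fun v hv => by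
    obtain ⟨u, rfl⟩ : v ∈ Set.range pr := by
      by_contra hv'
      exact hv (Finsupp.mapDomain_of_notMem_range _ _ hv')
    induction u using WithOne.recOneCoe with
    | one => exact ⟨by simp [pr], by decide⟩
    | coe w => exact w.toPair_good) h1
  rw [Prod.mk.eta, Finsupp.mapDomain_apply hi] at h2
  simpa using h2

universe u v

theorem result :
    (∀ (F : Type u) [Field F], (2 : F) ≠ 0 → IsDomain (MonoidAlgebra F (WithOne W))) ∧
    (∃ (D : Type) (_ : DivisionRing D) (_ : Algebra (ZMod 3) D)
      (f : MonoidAlgebra (ZMod 3) (WithOne W) →ₐ[ZMod 3] D), Function.Injective f) ∧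
    ∀ (F : Type u) [Field F], (X ^ 7 - 1 : F[X]).Splits →
      ∀ (D : Type v) [DivisionRing D] (f : MonoidAlgebra F (WithOne W) →ₙ+* D),
        ¬ Function.Injective f := by
  refine ⟨fun F _ h => domain h, ?_, fun F _ h D _ f => noEmbed h D f⟩
  obtain ⟨D, inst, g, hg⟩ := R_embeds
  obtain ⟨f, hf⟩ := embedR
  obtain ⟨k, hk⟩ := unital ((g : R →ₙ+* D).comp f) (hg.comp hf)
  have : CharP D 3 :=
    charP_of_injective_ringHom (RingHom.injective (k.comp (algebraMap (ZMod 3) _))) 3
  let _ := ZMod.algebra D 3
  refine ⟨D, inst, inferInstance, AlgHom.mk' k (ZMod.map_smul k), ?_⟩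
  intro x y h
  exact hg.comp hf ((hk x).symm.trans (h.trans (hk y)))

end Pool.Agent.Results.MP_b4fb0e_al.MonoidEx
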